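import Mathlib
import Pool.Agent.W214.DRC
import Pool.Agent.W214.Cube

namespace Pool.Agent.Results.MP_cecf76_co.TwoSidedPowerBounds

open Finset

/-- `I` is an `ε`-intersecting set of indices for the sequence `A` of subsets of the
`n`-element set `Fin n`: `|A_i ∩ A_j| > ε n` for all distinct `i, j ∈ I`. -/
def EpsIntersecting {n m : ℕ} (ε : ℝ) (A : Fin m → Finset (Fin n)) (I : Finset (Fin m)) : Prop :=
  ∀ i ∈ I, ∀ j ∈ I, i ≠ j → ε * n < ((A i ∩ A j).card : ℝ)

/-- Every sequence `A_1, …, A_m` of subsets of an `n`-element set with `|A_k| > c n` for all `k`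
has an `ε`-intersecting index set of size `s`. -/
def AlwaysHas (n m : ℕ) (c ε : ℝ) (s : ℕ) : Prop :=
  ∀ A : Fin m → Finset (Fin n), (∀ k, c * n < ((A k).card : ℝ)) →
    ∃ I : Finset (Fin m), EpsIntersecting ε A I ∧ I.card = s

/-- `f(n,m,c,ε)`: the largest integer `s` such that every such sequence has an
`ε`-intersecting index set of size `s`. -/
noncomputable def f (n m : ℕ) (c ε : ℝ) : ℕ := sSup {s | AlwaysHas n m c ε s}

theorem alwaysHas_zero (n m : ℕ) (c ε : ℝ) : AlwaysHas n m c ε 0 := by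
  intro A _
  exact ⟨∅, by simp [EpsIntersecting], by simp⟩

theorem alwaysHas_le {n m : ℕ} {c ε : ℝ} (hn : 1 ≤ n) (hc : c < 1) {s : ℕ}
    (h : AlwaysHas n m c ε s) : s ≤ m := by
  have hn' : (0 : ℝ) < n := by exact_mod_cast hn
  obtain ⟨I, -, hI⟩ := h (fun _ => univ) (by intro k; simp; nlinarith)
  rw [← hI]
  simpa using Finset.card_le_univ I

theorem bddAbove {n m : ℕ} {c ε : ℝ} (hn : 1 ≤ n) (hc : c < 1) :
    BddAbove {s | AlwaysHas n m c ε s} :=
  ⟨m, fun _ hs => alwaysHas_le hn hc hs⟩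

/-- `f` is attained. -/
theorem alwaysHas_f {n m : ℕ} {c ε : ℝ} (hn : 1 ≤ n) (hc : c < 1) :
    AlwaysHas n m c ε (f n m c ε) :=
  Nat.sSup_mem ⟨0, alwaysHas_zero n m c ε⟩ (bddAbove hn hc)

/-- the lower bound -/
theorem lower {c ε : ℝ} (hc : 0 < c) (hc1 : c < 1) (hε : 0 < ε) (hεc : ε < c)
    {n m : ℕ} (hn : 1 ≤ n) (hm : 1 ≤ m) :
    c / 2 * m * (2 * min (m : ℝ) (2 ^ n)) ^ (-(Real.log (1 / c) / Real.log (c / ε))) ≤
      (f n m c ε : ℝ) := by
  set M : ℝ := min (m : ℝ) (2 ^ n) with hM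
  have hM1 : 1 ≤ M := by
    rw [hM, le_min_iff]
    exact ⟨by exact_mod_cast hm, one_le_pow₀ (by norm_num)⟩
  set L := Real.log (c / ε) with hL
  have hLpos : 0 < L := Real.log_pos (by rw [lt_div_iff₀ hε]; linarith)
  set x := c / 2 * m * (2 * M) ^ (-(Real.log (1 / c) / L)) with hx
  have hlog2M : 0 ≤ Real.log (2 * M) := Real.log_nonneg (by linarith)
  set l := ⌈Real.log (2 * M) / L⌉₊ with hl
  have hl1 : Real.log (2 * M) / L ≤ l := Nat.le_ceil _
  have hl2 : (l : ℝ) < Real.log (2 * M) / L + 1 := Nat.ceil_lt_add_one (by positivity)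
  have hpow : 2 * M * ε ^ l ≤ c ^ l := by
    have h1 : 2 * M ≤ (c / ε) ^ l := by
      rw [div_le_iff₀ hLpos] at hl1
      rw [← Real.log_le_log_iff (by positivity) (by positivity), Real.log_pow]
      exact hl1
    rw [div_pow, le_div_iff₀ (by positivity)] at h1
    exact h1
  have hcl : c * (2 * M) ^ (-(Real.log (1 / c) / L)) ≤ c ^ l := by
    have h1 : (2 * M) ^ (-(Real.log (1 / c) / L)) = c ^ (Real.log (2 * M) / L) := by
      rw [Real.rpow_def_of_pos (by positivity), Real.rpow_def_of_pos hc]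
      congr 1
      rw [Real.log_div one_ne_zero hc.ne', Real.log_one]
      ring
    rw [h1]
    calc c * c ^ (Real.log (2 * M) / L) = c ^ (Real.log (2 * M) / L + 1) := by
          rw [Real.rpow_add hc, Real.rpow_one, mul_comm]
      _ ≤ c ^ (l : ℝ) := Real.rpow_le_rpow_of_exponent_ge hc hc1.le hl2.le
      _ = c ^ l := Real.rpow_natCast _ _
  have hkey : AlwaysHas n m c ε ⌈x⌉₊ := by
    intro A hA
    have hD : ((univ.image A).card : ℝ) ≤ M := by
      rw [hM, le_min_iff]
      constructor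
      · have := Finset.card_image_le (s := (univ : Finset (Fin m))) (f := A)
        simp at this
        exact_mod_cast this
      · have := Finset.card_le_univ (univ.image A)
        simp only [Fintype.card_finset, Fintype.card_fin] at this
        exact_mod_cast this
    obtain ⟨I, hI1, hI2⟩ := Pool.Agent.W214.DRC.drc hn hc hε A hA l M hD
    have hIx : x ≤ I.card := by
      refine le_trans ?_ hI2
      have hm0 : (0 : ℝ) ≤ m := by positivity
      calc x = m * (c * (2 * M) ^ (-(Real.log (1 / c) / L)) / 2) := by rw [hx]; ring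
        _ ≤ m * (c ^ l - M * ε ^ l) := by
          apply mul_le_mul_of_nonneg_left _ hm0
          nlinarith
    obtain ⟨I', hI'1, hI'2⟩ := Finset.exists_subset_card_eq (s := I) (Nat.ceil_le.mpr hIx)
    exact ⟨I', fun i hi j hj hij => hI1 i (hI'1 hi) j (hI'1 hj) hij, hI'2⟩
  calc x ≤ (⌈x⌉₊ : ℝ) := Nat.le_ceil _
    _ ≤ f n m c ε := by
      exact_mod_cast le_csSup (bddAbove hn hc1) hkey

/-- number of points of the coordinate blocks missed by `x` or by `y` -/
theorem card_missed (N b : ℕ) (x y : Fin N → Bool) :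
    (univ.filter (fun p : Fin N × Bool × Fin b => p.2.1 ≠ x p.1 ∨ p.2.1 ≠ y p.1)).card =
      b * (N + hammingDist x y) := by
  rw [Finset.card_filter, Fintype.sum_prod_type]
  have h : ∀ i : Fin N, (∑ q : Bool × Fin b,
      if (q.1 ≠ x i ∨ q.1 ≠ y i) then 1 else 0) = b * (1 + if x i ≠ y i then 1 else 0) := by
    intro i
    rw [Fintype.sum_prod_type]
    simp only [Fintype.univ_bool]
    rw [Finset.sum_pair (by simp)]
    have : ∀ u v : Bool, ((∑ _t : Fin b, if (true ≠ u ∨ true ≠ v) then 1 else 0) +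
        ∑ _t : Fin b, if (false ≠ u ∨ false ≠ v) then 1 else 0) =
          b * (1 + if u ≠ v then 1 else 0) := by
      intro u v
      cases u <;> cases v <;> simp <;> ring
    exact this _ _
  rw [Finset.sum_congr rfl (fun i _ => h i), ← Finset.mul_sum, Finset.sum_add_distrib]
  simp [hammingDist, Finset.card_filter]

/-- the upper bound on `f` -/
theorem upper {c ε : ℝ} (hc : 0 < c) (hc1 : c ≤ 1 / 2) (hε : 0 < ε) (hε1 : ε ≤ 1)
    {n m : ℕ} (hn : 1 ≤ n) (hm : 1 ≤ m) :
    (f n m c ε : ℝ) ≤ 4 * m * (min (m : ℝ) (2 ^ (ε * n / 4))) ^ (-(ε ^ 2 / 2)) := by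
  classical
  have hgood := alwaysHas_f (m := m) (ε := ε) hn (lt_of_le_of_lt hc1 (by norm_num) : c < 1)
  set N := min (Nat.log 2 m) ⌊ε * n / 4⌋₊ with hN
  have hNm : 2 ^ N ≤ m :=
    le_trans (Nat.pow_le_pow_right (by norm_num) (min_le_left _ _)) (Nat.pow_log_le_self 2 (by omega))
  have hNε : (N : ℝ) ≤ ε * n / 4 := by
    have h1 : (N : ℝ) ≤ (⌊ε * n / 4⌋₊ : ℝ) := by exact_mod_cast min_le_right _ _
    exact le_trans h1 (Nat.floor_le (by positivity))
  have hm0 : (0 : ℝ) < m := by exact_mod_cast hm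
  have hn0 : (0 : ℝ) < n := by exact_mod_cast hn
  -- main combinatorial bound
  have hmain : (f n m c ε : ℝ) ≤ 2 * m * Real.exp (-(ε ^ 2 * N / 2)) := by
    rcases Nat.eq_zero_or_pos N with hN0 | hNpos
    · have h1 : f n m c ε ≤ m := alwaysHas_le hn (lt_of_le_of_lt hc1 (by norm_num) : c < 1) hgood
      have h2 : (f n m c ε : ℝ) ≤ m := by exact_mod_cast h1
      rw [hN0]; simp; linarith
    · set b := (n - 1) / (2 * N) with hb
      have hb1 : 2 * N * b ≤ n - 1 := Nat.mul_div_le _ _
      have hb2 : n - 1 < 2 * N * b + 2 * N := by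
        have := Nat.lt_mul_div_succ (n - 1) (b := 2 * N) (by omega)
        rw [← hb, mul_add, mul_one] at this
        exact this
      have hb2' : (n : ℝ) ≤ 2 * N * b + 2 * N := by
        have : n ≤ 2 * N * b + 2 * N := by omega
        exact_mod_cast this
      have hb1' : (2 * N * b : ℝ) < n := by
        have : 2 * N * b < n := by omega
        exact_mod_cast this
      obtain ⟨φ⟩ : Nonempty ((Fin N × Bool × Fin b) ↪ Fin n) := by
        apply Function.Embedding.nonempty_of_card_le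
        simp only [Fintype.card_prod, Fintype.card_fin, Fintype.card_bool]
        calc N * (2 * b) = 2 * N * b := by ring
          _ ≤ n := by omega
      let T : (Fin N → Bool) → Finset (Fin N × Bool × Fin b) := fun x =>
        univ.filter (fun p => p.2.1 ≠ x p.1)
      let B : (Fin N → Bool) → Finset (Fin n) := fun x => univ \ (T x).map φ
      have hBB : ∀ x y, ((B x ∩ B y).card : ℝ) = n - b * (N + hammingDist x y) := by
        intro x y
        have h1 : B x ∩ B y = univ \ (univ.filter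
            (fun p : Fin N × Bool × Fin b => p.2.1 ≠ x p.1 ∨ p.2.1 ≠ y p.1)).map φ := by
          ext a
          simp only [B, T, mem_inter, mem_sdiff, mem_univ, true_and, mem_map, mem_filter]
          constructor
          · rintro ⟨h1, h2⟩ ⟨p, hp | hp, rfl⟩
            · exact h1 ⟨p, hp, rfl⟩
            · exact h2 ⟨p, hp, rfl⟩
          · intro h
            exact ⟨fun ⟨p, hp, hpa⟩ => h ⟨p, Or.inl hp, hpa⟩, fun ⟨p, hp, hpa⟩ => h ⟨p, Or.inr hp, hpa⟩⟩
        rw [h1, Finset.card_sdiff_of_subset (Finset.subset_univ _), Finset.card_map, card_missed]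
        have h2 : b * (N + hammingDist x y) ≤ n := by
          have h3 : hammingDist x y ≤ N := by simpa using hammingDist_le_card_fintype (x := x) (y := y)
          calc b * (N + hammingDist x y) ≤ b * (N + N) := Nat.mul_le_mul_left _ (by omega)
            _ = 2 * N * b := by ring
            _ ≤ n := by omega
        rw [Nat.cast_sub (by simpa using h2)]
        push_cast
        simp
      let e : (Fin N → Bool) ≃ Fin (2 ^ N) := Fintype.equivFinOfCardEq (by simp)
      let X : Fin m → (Fin N → Bool) := fun k => e.symm ⟨k.val % 2 ^ N, Nat.mod_lt _ (by positivity)⟩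
      obtain ⟨I, hI, hIcard⟩ := hgood (fun k => B (X k)) (by
        intro k
        have h1 := hBB (X k) (X k)
        rw [Finset.inter_self, hammingDist_self] at h1
        rw [h1]
        push_cast
        nlinarith)
      have hXI : ∀ x ∈ I.image X, ∀ y ∈ I.image X, (hammingDist x y : ℝ) ≤ (1 - ε) * N := by
        intro x hx y hy
        obtain ⟨k, hk, rfl⟩ := mem_image.mp hx
        obtain ⟨j, hj, rfl⟩ := mem_image.mp hy
        by_cases hkj : k = j
        · subst hkj
          rw [hammingDist_self]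
          push_cast
          exact mul_nonneg (by linarith) (by positivity)
        · have h1 := hI k hk j hj hkj
          rw [hBB] at h1
          by_contra hcon
          push Not at hcon
          set d : ℝ := (hammingDist (X k) (X j) : ℝ) with hd
          have hb0 : (0 : ℝ) ≤ b := by positivity
          have h2 : (b : ℝ) * (N + d) ≥ b * (N + (1 - ε) * N) := by
            apply mul_le_mul_of_nonneg_left _ hb0
            linarith
          -- n (1 - ε) > b (2 - ε) N  and 2 N b ≥ n - 2 N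
          have h3 : (b : ℝ) * (N + (1 - ε) * N) = (2 * N * b) * (1 - ε / 2) := by ring
          have h4 : (2 * N * b : ℝ) * (1 - ε / 2) ≥ (n - 2 * N) * (1 - ε / 2) := by
            apply mul_le_mul_of_nonneg_right _ (by linarith)
            linarith
          nlinarith
      have hcardX := Pool.Agent.W214.Cube.card_le_of_no_antipodal N ε hε.le (I.image X) hXI
      have hfib : I.card ≤ (m / 2 ^ N + 1) * (I.image X).card := by
        apply Finset.card_le_mul_card_image
        intro a _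
        calc (I.filter (fun k => X k = a)).card
            ≤ (Finset.range (m / 2 ^ N + 1)).card := by
              apply Finset.card_le_card_of_injOn (fun k : Fin m => k.val / 2 ^ N)
              · intro k _
                simp only [coe_range, Set.mem_Iio]
                have : k.val / 2 ^ N ≤ m / 2 ^ N := Nat.div_le_div_right k.isLt.le
                omega
              · intro k hk j hj hkj
                have hk' : X k = a := (mem_filter.mp hk).2
                have hj' : X j = a := (mem_filter.mp hj).2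
                have h1 : X k = X j := by rw [hk', hj']
                have h2 := e.symm.injective h1
                have h3 : k.val % 2 ^ N = j.val % 2 ^ N := by simpa using h2
                have h4 : k.val / 2 ^ N = j.val / 2 ^ N := hkj
                apply Fin.ext
                rw [← Nat.div_add_mod k.val (2 ^ N), ← Nat.div_add_mod j.val (2 ^ N), h3, h4]
          _ = m / 2 ^ N + 1 := by simp
      have h2m : ((m / 2 ^ N + 1 : ℕ) : ℝ) * 2 ^ N ≤ 2 * m := by
        have h1 : (m / 2 ^ N + 1) * 2 ^ N ≤ 2 * m := by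
          have := Nat.div_mul_le_self m (2 ^ N)
          nlinarith
        exact_mod_cast h1
      have hIc : (f n m c ε : ℝ) = (I.card : ℝ) := by rw [hIcard]
      rw [hIc]
      calc (I.card : ℝ) ≤ ((m / 2 ^ N + 1 : ℕ) : ℝ) * (I.image X).card := by exact_mod_cast hfib
        _ ≤ ((m / 2 ^ N + 1 : ℕ) : ℝ) * (2 ^ N * Real.exp (-(ε ^ 2 * N / 2))) := by
            apply mul_le_mul_of_nonneg_left hcardX (by positivity)
        _ = ((m / 2 ^ N + 1 : ℕ) : ℝ) * 2 ^ N * Real.exp (-(ε ^ 2 * N / 2)) := by ring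
        _ ≤ 2 * m * Real.exp (-(ε ^ 2 * N / 2)) := by
            apply mul_le_mul_of_nonneg_right h2m (Real.exp_pos _).le
  -- analytic comparison
  set M : ℝ := min (m : ℝ) (2 ^ (ε * n / 4)) with hM
  have hMpos : 0 < M := lt_min hm0 (by positivity)
  have hMle : Real.log M ≤ (N + 1) * Real.log 2 := by
    have hl2 : 0 < Real.log 2 := Real.log_pos (by norm_num)
    rcases min_choice (Nat.log 2 m) ⌊ε * n / 4⌋₊ with h | h
    · have h1 : m < 2 ^ (N + 1) := by
        rw [hN, h]; exact Nat.lt_pow_succ_log_self (by norm_num) m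
      have h2 : M ≤ 2 ^ (N + 1) := by
        refine le_trans (min_le_left _ _) ?_
        exact_mod_cast h1.le
      calc Real.log M ≤ Real.log (2 ^ (N + 1)) := Real.log_le_log hMpos h2
        _ = _ := by rw [Real.log_pow]; push_cast; ring
    · have h1 : ε * n / 4 < N + 1 := by
        rw [hN, h]; exact Nat.lt_floor_add_one _
      calc Real.log M ≤ Real.log (2 ^ (ε * n / 4)) := Real.log_le_log hMpos (min_le_right _ _)
        _ = ε * n / 4 * Real.log 2 := by rw [Real.log_rpow (by norm_num)]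
        _ ≤ _ := by apply mul_le_mul_of_nonneg_right h1.le hl2.le
  refine le_trans hmain ?_
  have hlast : Real.exp (-(ε ^ 2 * N / 2)) ≤ 2 * M ^ (-(ε ^ 2 / 2)) := by
    rw [Real.rpow_def_of_pos hMpos]
    have h2 : (2 : ℝ) = Real.exp (Real.log 2) := (Real.exp_log (by norm_num)).symm
    have hl2 : 0 < Real.log 2 := Real.log_pos (by norm_num)
    have hl1 : Real.log 2 ≤ 1 := by
      have := Real.log_le_sub_one_of_pos (show (0:ℝ) < 2 by norm_num)
      linarith
    calc Real.exp (-(ε ^ 2 * N / 2))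
        ≤ Real.exp (Real.log 2 + Real.log M * (-(ε ^ 2 / 2))) := by
          rw [Real.exp_le_exp]
          have h3 : Real.log M * (ε ^ 2 / 2) ≤ (N + 1) * Real.log 2 * (ε ^ 2 / 2) :=
            mul_le_mul_of_nonneg_right hMle (by positivity)
          have h4 : (N : ℝ) * Real.log 2 * (ε ^ 2 / 2) ≤ N * (ε ^ 2 / 2) := by
            have h5 : (N : ℝ) * Real.log 2 ≤ N * 1 := mul_le_mul_of_nonneg_left hl1 (by positivity)
            calc (N : ℝ) * Real.log 2 * (ε ^ 2 / 2) ≤ N * 1 * (ε ^ 2 / 2) :=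
                  mul_le_mul_of_nonneg_right h5 (by positivity)
              _ = _ := by ring
          have h6 : Real.log 2 * (ε ^ 2 / 2) ≤ Real.log 2 := by
            have : ε ^ 2 / 2 ≤ 1 := by nlinarith
            nlinarith
          nlinarith
      _ = 2 * Real.exp (Real.log M * (-(ε ^ 2 / 2))) := by
          rw [Real.exp_add, Real.exp_log (by norm_num)]
  calc 2 * (m : ℝ) * Real.exp (-(ε ^ 2 * N / 2)) ≤ 2 * m * (2 * M ^ (-(ε ^ 2 / 2))) :=
        mul_le_mul_of_nonneg_left hlast (by positivity)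
    _ = _ := by ring

/-- **Main result.** -/
theorem result :
    (∀ c ε : ℝ, 0 < c → c < 1 → 0 < ε → ε < c → ∀ n m : ℕ, 1 ≤ n → 1 ≤ m →
      c / 2 * m * (2 * min (m : ℝ) (2 ^ n)) ^ (-(Real.log (1 / c) / Real.log (c / ε))) ≤
        (f n m c ε : ℝ)) ∧
    (∀ c ε : ℝ, 0 < c → c ≤ 1 / 2 → 0 < ε → ε ≤ 1 → ∀ n m : ℕ, 1 ≤ n → 1 ≤ m →
      (f n m c ε : ℝ) ≤ 4 * m * (min (m : ℝ) (2 ^ (ε * n / 4))) ^ (-(ε ^ 2 / 2))) :=
  ⟨fun _ _ h1 h2 h3 h4 _ _ h5 h6 => lower h1 h2 h3 h4 h5 h6,
   fun _ _ h1 h2 h3 h4 _ _ h5 h6 => upper h1 h2 h3 h4 h5 h6⟩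

/-- Consequence of the first part: Erdős's conjecture `f(n,n,c,ε) > η n^{1/2}`, with `ε = c³`,
for every `0 < c < 1`, in the stronger form `f(n,m,c,ε) ≥ η m^{1/2}` for all `n, m`. -/
theorem erdos_conjecture (c : ℝ) (hc : 0 < c) (hc1 : c < 1) :
    ∃ ε : ℝ, 0 < ε ∧ ∃ η : ℝ, 0 < η ∧ ∀ n m : ℕ, 1 ≤ n → 1 ≤ m →
      η * Real.sqrt m < (f n m c ε : ℝ) := by
  have hc3 : c ^ 3 < c := by nlinarith [mul_pos hc hc, sub_pos.mpr hc1, mul_pos (mul_pos hc hc) hc]
  refine ⟨c ^ 3, by positivity, c / 4, by positivity, fun n m hn hm => ?_⟩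
  have h1 := result.1 c (c ^ 3) hc hc1 (by positivity) hc3 n m hn hm
  have hlog : Real.log (1 / c) / Real.log (c / c ^ 3) = 1 / 2 := by
    have h2 : c / c ^ 3 = (1 / c) ^ 2 := by field_simp
    have h3 : 0 < Real.log (1 / c) := Real.log_pos (by rw [lt_div_iff₀ hc]; linarith)
    rw [h2, Real.log_pow]
    push_cast
    field_simp
  rw [hlog] at h1
  refine lt_of_lt_of_le ?_ h1
  have hm0 : (0 : ℝ) < m := by exact_mod_cast hm
  have h4 : (2 * (m : ℝ)) ^ (-(1 / 2 : ℝ)) ≤ (2 * min (m : ℝ) (2 ^ n)) ^ (-(1 / 2 : ℝ)) := by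
    apply Real.rpow_le_rpow_of_nonpos
    · have : (0:ℝ) < min (m : ℝ) (2 ^ n) := lt_min hm0 (by positivity)
      positivity
    · exact mul_le_mul_of_nonneg_left (min_le_left _ _) (by norm_num)
    · norm_num
  refine lt_of_lt_of_le ?_ (mul_le_mul_of_nonneg_left h4 (by positivity))
  rw [Real.rpow_neg (by positivity), ← Real.sqrt_eq_rpow, Real.sqrt_mul (by norm_num)]
  have hs : 0 < Real.sqrt m := Real.sqrt_pos.mpr hm0
  have hs2 : Real.sqrt m * Real.sqrt m = m := Real.mul_self_sqrt hm0.le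
  have h2 : 0 < Real.sqrt 2 := Real.sqrt_pos.mpr (by norm_num)
  have h22 : Real.sqrt 2 < 2 := by
    rw [Real.sqrt_lt' (by norm_num)]; norm_num
  rw [← div_eq_mul_inv, lt_div_iff₀ (by positivity)]
  calc c / 4 * Real.sqrt m * (Real.sqrt 2 * Real.sqrt m)
      = c / 4 * Real.sqrt 2 * (Real.sqrt m * Real.sqrt m) := by ring
    _ = c / 4 * Real.sqrt 2 * m := by rw [hs2]
    _ < c / 4 * 2 * m := by
        apply mul_lt_mul_of_pos_right _ hm0
        apply mul_lt_mul_of_pos_left h22 (by positivity)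
    _ = c / 2 * m := by ring

/-- Consequence of the second part: for no `0 < c ≤ 1/2` and no `ε > 0` is there an `η > 0` with
`f(n,m,c,ε) ≥ η m` for all `m < n`. -/
theorem not_linear (c ε : ℝ) (hc : 0 < c) (hc1 : c ≤ 1 / 2) (hε : 0 < ε) :
    ¬ ∃ η : ℝ, 0 < η ∧ ∀ n m : ℕ, 1 ≤ m → m < n → η * m ≤ (f n m c ε : ℝ) := by
  rintro ⟨η, hη, h⟩
  -- reduce to `ε ≤ 1`
  set δ := min ε 1 with hδ
  have hδ0 : 0 < δ := lt_min hε one_pos
  have hδ1 : δ ≤ 1 := min_le_right _ _
  have hmono : ∀ n m : ℕ, 1 ≤ n → f n m c ε ≤ f n m c δ := by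
    intro n m hn
    have hc' : c < 1 := lt_of_le_of_lt hc1 (by norm_num)
    have h1 := alwaysHas_f (m := m) (ε := ε) hn hc'
    apply le_csSup (bddAbove hn hc')
    intro A hA
    obtain ⟨I, hI, hI2⟩ := h1 A hA
    refine ⟨I, fun i hi j hj hij => lt_of_le_of_lt ?_ (hI i hi j hj hij), hI2⟩
    exact mul_le_mul_of_nonneg_right (min_le_left _ _) (by positivity)
  -- `f (m+k) m` for large `k` and then large `m`
  obtain ⟨m, hm1, hm⟩ : ∃ m : ℕ, 1 ≤ m ∧ 4 * (m : ℝ) ^ (-(δ ^ 2 / 2)) < η := by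
    have ht : Filter.Tendsto (fun m : ℕ => 4 * (m : ℝ) ^ (-(δ ^ 2 / 2))) Filter.atTop
        (nhds (4 * 0)) :=
      ((tendsto_rpow_neg_atTop (by positivity)).comp tendsto_natCast_atTop_atTop).const_mul 4
    rw [mul_zero] at ht
    obtain ⟨m, h1, h2⟩ := ((ht.eventually_lt_const hη).and
      (Filter.eventually_ge_atTop 1)).exists
    exact ⟨m, h2, h1⟩
  have hm0 : (0 : ℝ) < m := by exact_mod_cast hm1
  obtain ⟨n, hn⟩ := exists_nat_gt (max (m : ℝ) (4 * Real.logb 2 m / δ))
  have hnm : m < n := by exact_mod_cast lt_of_le_of_lt (le_max_left _ _) hn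
  have hn2 : 4 * Real.logb 2 m / δ < n := lt_of_le_of_lt (le_max_right _ _) hn
  have h1 := h n m hm1 hnm
  have h2 : (f n m c ε : ℝ) ≤ f n m c δ := by exact_mod_cast hmono n m (by omega)
  have h3 := result.2 c δ hc hc1 hδ0 hδ1 n m (by omega) hm1
  have h4 : min (m : ℝ) (2 ^ (δ * n / 4)) = m := by
    apply min_eq_left
    have h5 : Real.logb 2 m ≤ δ * n / 4 := by
      rw [div_lt_iff₀ hδ0] at hn2
      linarith
    calc (m : ℝ) = 2 ^ (Real.logb 2 m) := (Real.rpow_logb (by norm_num) (by norm_num) hm0).symm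
      _ ≤ _ := Real.rpow_le_rpow_of_exponent_le (by norm_num) h5
  rw [h4] at h3
  have h5 : η * m < η * m := by
    calc η * m ≤ 4 * m * (m : ℝ) ^ (-(δ ^ 2 / 2)) := by linarith
      _ = (4 * (m : ℝ) ^ (-(δ ^ 2 / 2))) * m := by ring
      _ < η * m := by apply mul_lt_mul_of_pos_right hm hm0
  exact lt_irrefl _ h5

end Pool.Agent.Results.MP_cecf76_co.TwoSidedPowerBounds
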